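import Mathlib

/-!
Continuous real images of subsets of `ℝ^n`: the exceptional sets, the pieces and the coding map.
(The case `n = 2` is in `Pool.Agent.Results.MP_2d1133_lc.ContinuousImages`.)
-/

set_option autoImplicit false

namespace Pool.Agent.Y388.CI

open Set Filter Topology MeasureTheory
open scoped ENNReal NNReal

theorem hausdorff_zero_of_io {X : Type*} [EMetricSpace X] [MeasurableSpace X] [BorelSpace X]
    (d : ℝ) (hd : 0 < d) (S : Set X) (ι : ℕ → Type) [∀ k, Fintype (ι k)]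
    (T : ∀ k, ι k → Set X) (r : ℕ → ℝ≥0∞) (hr : Tendsto r atTop (𝓝 0)) (hanti : Antitone r)
    (hT : ∀ k i, Metric.ediam (T k i) ≤ r k)
    (hS : ∀ x ∈ S, ∀ N : ℕ, ∃ k ≥ N, ∃ i, x ∈ T k i)
    (hsum : ∑' k, (Fintype.card (ι k) : ℝ≥0∞) * r k ^ d ≠ ∞) : μH[d] S = 0 := by
  have h1 := Measure.hausdorffMeasure_le_liminf_tsum (X := X) d S (l := atTop) (β := ℕ)
    (ι := fun N => Σ k : ℕ, ι (k + N)) r hr (fun N p => T (p.1 + N) p.2)
    (Eventually.of_forall fun N p => (hT _ _).trans (hanti (Nat.le_add_left _ _)))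
    (Eventually.of_forall fun N => by
      intro x hx
      obtain ⟨k, hk, i, hi⟩ := hS x hx N
      obtain ⟨l, rfl⟩ : ∃ l, k = l + N := ⟨k - N, by omega⟩
      exact mem_iUnion.mpr ⟨⟨l, i⟩, hi⟩)
  have h2 : ∀ N, ∑' p : (Σ k : ℕ, ι (k + N)), Metric.ediam (T (p.1 + N) p.2) ^ d ≤
      ∑' k, (Fintype.card (ι (k + N)) : ℝ≥0∞) * r (k + N) ^ d := by
    intro N
    rw [ENNReal.tsum_sigma']
    apply ENNReal.tsum_le_tsum
    intro k
    rw [tsum_fintype]
    calc ∑ i : ι (k + N), Metric.ediam (T (k + N) i) ^ d ≤ ∑ i : ι (k + N), r (k + N) ^ d := by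
          apply Finset.sum_le_sum
          intro i _
          exact ENNReal.rpow_le_rpow (hT _ _) hd.le
      _ = (Fintype.card (ι (k + N)) : ℝ≥0∞) * r (k + N) ^ d := by
          rw [Finset.sum_const, Finset.card_univ, nsmul_eq_mul]
  have h3 : Tendsto (fun N => ∑' k, (Fintype.card (ι (k + N)) : ℝ≥0∞) * r (k + N) ^ d) atTop
      (𝓝 0) :=
    ENNReal.tendsto_sum_nat_add (fun k => (Fintype.card (ι k) : ℝ≥0∞) * r k ^ d) hsum
  have h4 : Tendsto (fun N => ∑' p : (Σ k : ℕ, ι (k + N)), Metric.ediam (T (p.1 + N) p.2) ^ d)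
      atTop (𝓝 0) :=
    tendsto_of_tendsto_of_tendsto_of_le_of_le tendsto_const_nhds h3 (fun _ => bot_le) h2
  rw [h4.liminf_eq] at h1
  exact le_antisymm h1 bot_le

/-- Widths of the strips. -/
noncomputable def w (k : ℕ) : ℝ := (1 / 2 : ℝ) ^ (k ^ 2)

theorem w_pos (k : ℕ) : 0 < w k := by
  unfold w
  positivity

theorem summable_main (ε : ℝ) (hε : 0 < ε) :
    Summable (fun k : ℕ => (2 : ℝ) ^ ((k : ℝ) - ε * (k : ℝ) ^ 2)) := by
  obtain ⟨K, hK⟩ := exists_nat_gt (2 / ε)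
  have hg : Summable (fun k : ℕ => (1 / 2 : ℝ) ^ k) :=
    summable_geometric_of_lt_one (by norm_num) (by norm_num)
  refine Summable.of_norm_bounded_eventually_nat hg ?_
  filter_upwards [eventually_ge_atTop K] with k hk
  rw [Real.norm_of_nonneg (by positivity)]
  have h1 : (1 / 2 : ℝ) ^ k = (2 : ℝ) ^ (-(k : ℝ)) := by
    rw [Real.rpow_neg (by norm_num), Real.rpow_natCast, one_div, inv_pow]
  rw [h1]
  apply Real.rpow_le_rpow_of_exponent_le (by norm_num)
  have h2 : 2 / ε < (k : ℝ) := hK.trans_le (by exact_mod_cast hk)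
  rw [div_lt_iff₀ hε] at h2
  have h3 : (0 : ℝ) ≤ k := Nat.cast_nonneg k
  nlinarith

variable {m : ℕ}

/-- The points which are too close to the dyadic grid infinitely often. -/
def Z (i : Fin (m + 1)) : Set (Fin (m + 1) → ℝ) :=
  {x | ∀ N : ℕ, ∃ k ≥ N, ∃ l : ℤ, |x i - l / 2 ^ k| < w k}

/-- The cells of the covers. -/
noncomputable def cells (i : Fin (m + 1)) (n k : ℕ) : Finset (Fin (m + 1) → ℤ) :=
  Fintype.piFinset (Function.update
    (fun _ => Finset.Icc (-((n * 2 ^ (k ^ 2) + 1 : ℕ) : ℤ)) ((n * 2 ^ (k ^ 2) + 1 : ℕ) : ℤ)) i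
    (Finset.Icc (-((n * 2 ^ k + 1 : ℕ) : ℤ)) ((n * 2 ^ k + 1 : ℕ) : ℤ)))

theorem cells_card (i : Fin (m + 1)) (n k : ℕ) :
    ((cells i n k).card : ℝ) ≤ (2 * n + 3) ^ (m + 1) * (2 ^ k * (2 ^ (k ^ 2)) ^ m) := by
  have h1 : (cells i n k).card =
      (2 * (n * 2 ^ k + 1) + 1) * (2 * (n * 2 ^ (k ^ 2) + 1) + 1) ^ m := by
    unfold cells
    rw [Fintype.card_piFinset]
    have h2 : ∀ j, (Function.update
        (fun _ => Finset.Icc (-((n * 2 ^ (k ^ 2) + 1 : ℕ) : ℤ)) ((n * 2 ^ (k ^ 2) + 1 : ℕ) : ℤ)) i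
        (Finset.Icc (-((n * 2 ^ k + 1 : ℕ) : ℤ)) ((n * 2 ^ k + 1 : ℕ) : ℤ)) j).card =
        Function.update (fun _ : Fin (m + 1) => 2 * (n * 2 ^ (k ^ 2) + 1) + 1) i
          (2 * (n * 2 ^ k + 1) + 1) j := by
      intro j
      by_cases hj : j = i
      · subst hj
        rw [Function.update_self, Function.update_self, Int.card_Icc]
        omega
      · rw [Function.update_of_ne hj, Function.update_of_ne hj, Int.card_Icc]
        omega
    rw [Finset.prod_congr rfl fun j _ => h2 j, Finset.prod_update_of_mem (Finset.mem_univ i),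
      Finset.prod_const]
    congr 2
    rw [Finset.card_sdiff_of_subset (Finset.subset_univ _)]
    simp
  rw [h1]
  push_cast
  have h2 : (1 : ℝ) ≤ 2 ^ k := one_le_pow₀ (by norm_num)
  have h3 : (1 : ℝ) ≤ 2 ^ (k ^ 2) := one_le_pow₀ (by norm_num)
  have h4 : (2 * (n * 2 ^ k + 1) + 1 : ℝ) ≤ (2 * n + 3) * 2 ^ k := by nlinarith
  have h5 : (2 * (n * 2 ^ (k ^ 2) + 1) + 1 : ℝ) ≤ (2 * n + 3) * 2 ^ (k ^ 2) := by nlinarith
  calc (2 * (n * 2 ^ k + 1) + 1 : ℝ) * (2 * (n * 2 ^ (k ^ 2) + 1) + 1) ^ m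
      ≤ ((2 * n + 3) * 2 ^ k) * ((2 * n + 3) * 2 ^ (k ^ 2)) ^ m := by
        apply mul_le_mul h4 (pow_le_pow_left₀ (by positivity) h5 m) <;> positivity
    _ = _ := by
        rw [mul_pow, pow_succ]
        ring

theorem dimH_Z (i : Fin (m + 1)) : dimH (Z i) ≤ m := by
  have hZ : Z i = ⋃ n : ℕ, Z i ∩ {x | ∀ j, |x j| ≤ n} := by
    rw [← inter_iUnion]
    symm
    apply inter_eq_left.mpr
    intro x _
    obtain ⟨n, hn⟩ := exists_nat_ge (‖x‖)
    refine mem_iUnion.mpr ⟨n, ?_⟩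
    intro j
    exact (norm_le_pi_norm x j).trans hn
  rw [hZ, dimH_iUnion]
  apply iSup_le
  intro n
  apply dimH_le
  intro d hd
  by_contra hcon
  have hd1 : (m : ℝ) < d := by
    rw [not_le] at hcon
    exact_mod_cast hcon
  have hm0 : (0 : ℝ) ≤ m := Nat.cast_nonneg m
  have hzero : μH[d] (Z i ∩ {x : Fin (m + 1) → ℝ | ∀ j, |x j| ≤ n}) = 0 := by
    apply hausdorff_zero_of_io (d : ℝ) (by linarith) _ (fun k => (cells i n k))
      (fun k c => {x : Fin (m + 1) → ℝ | |x i - c.1 i / 2 ^ k| ≤ w k ∧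
        ∀ j, j ≠ i → |x j - c.1 j * w k| ≤ w k})
      (fun k => ENNReal.ofReal (2 * w k))
    · have h1 : Tendsto (fun k => 2 * w k) atTop (𝓝 0) := by
        have h2 : Tendsto w atTop (𝓝 0) := by
          have h3 : Tendsto (fun k : ℕ => (1 / 2 : ℝ) ^ k) atTop (𝓝 0) :=
            tendsto_pow_atTop_nhds_zero_of_lt_one (by norm_num) (by norm_num)
          refine squeeze_zero (fun k => (w_pos k).le) (fun k => ?_) h3
          unfold w
          apply pow_le_pow_of_le_one (by norm_num) (by norm_num)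
          nlinarith [Nat.zero_le k, sq_nonneg k]
        simpa using h2.const_mul 2
      have h2 := ENNReal.tendsto_ofReal h1
      simpa using h2
    · intro k l hkl
      apply ENNReal.ofReal_le_ofReal
      apply mul_le_mul_of_nonneg_left _ (by norm_num)
      unfold w
      apply pow_le_pow_of_le_one (by norm_num) (by norm_num)
      exact Nat.pow_le_pow_left hkl 2
    · intro k c
      apply Metric.ediam_le
      rintro x ⟨hx1, hx2⟩ y ⟨hy1, hy2⟩
      rw [edist_dist]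
      apply ENNReal.ofReal_le_ofReal
      rw [dist_pi_le_iff (by have := w_pos k; positivity)]
      intro j
      rw [Real.dist_eq]
      by_cases hj : j = i
      · subst hj
        rw [abs_le] at *
        constructor <;> linarith [hx1.1, hx1.2, hy1.1, hy1.2]
      · have h1 := hx2 j hj
        have h2 := hy2 j hj
        rw [abs_le] at *
        constructor <;> linarith [h1.1, h1.2, h2.1, h2.2]
    · rintro x ⟨hx1, hx2⟩ N
      obtain ⟨k, hk, l, hm⟩ := hx1 N
      have hw := w_pos k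
      have hmem : (Function.update (fun j => round (x j / w k)) i l) ∈ cells i n k := by
        unfold cells
        rw [Fintype.mem_piFinset]
        have h2k : (0 : ℝ) < 2 ^ k := by positivity
        have hwle : w k * 2 ^ k ≤ 1 := by
          unfold w
          have : (1 / 2 : ℝ) ^ (k ^ 2) ≤ (1 / 2) ^ k := by
            apply pow_le_pow_of_le_one (by norm_num) (by norm_num)
            nlinarith [Nat.zero_le k]
          calc (1 / 2 : ℝ) ^ (k ^ 2) * 2 ^ k ≤ (1 / 2) ^ k * 2 ^ k := by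
                apply mul_le_mul_of_nonneg_right this h2k.le
            _ = 1 := by
                rw [← mul_pow]
                norm_num
        have hm2 : |(l : ℝ)| ≤ n * 2 ^ k + 1 := by
          have h1 : (l : ℝ) = (l / 2 ^ k - x i) * 2 ^ k + x i * 2 ^ k := by
            field_simp
            ring
          rw [h1]
          calc |(l / 2 ^ k - x i) * 2 ^ k + x i * 2 ^ k|
              ≤ |(l / 2 ^ k - x i) * 2 ^ k| + |x i * 2 ^ k| := abs_add_le _ _
            _ = |x i - l / 2 ^ k| * 2 ^ k + |x i| * 2 ^ k := by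
                rw [abs_mul, abs_mul, abs_of_pos h2k, abs_sub_comm]
            _ ≤ w k * 2 ^ k + n * 2 ^ k := by
                have := hx2 i
                apply add_le_add
                · exact mul_le_mul_of_nonneg_right hm.le h2k.le
                · exact mul_le_mul_of_nonneg_right this h2k.le
            _ ≤ n * 2 ^ k + 1 := by linarith
        have hr2 : ∀ j, |((round (x j / w k) : ℤ) : ℝ)| ≤ n * 2 ^ (k ^ 2) + 1 := by
          intro j
          have h1 := abs_sub_round (x j / w k)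
          have h2 : |x j / w k| ≤ n * 2 ^ (k ^ 2) := by
            rw [abs_div, abs_of_pos hw, div_le_iff₀ hw]
            have h3 : (n : ℝ) * 2 ^ (k ^ 2) * w k = n := by
              unfold w
              rw [mul_assoc, ← mul_pow]
              norm_num
            rw [h3]
            exact hx2 j
          rw [abs_le] at *
          constructor <;> linarith [h1.1, h1.2, h2.1, h2.2]
        have e1 : ((n * 2 ^ k + 1 : ℕ) : ℝ) = n * 2 ^ k + 1 := by push_cast; ring
        have e2 : ((n * 2 ^ (k ^ 2) + 1 : ℕ) : ℝ) = n * 2 ^ (k ^ 2) + 1 := by push_cast; ring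
        rw [← e1] at hm2
        rw [abs_le] at hm2
        intro j
        by_cases hj : j = i
        · subst hj
          rw [Function.update_self, Function.update_self, Finset.mem_Icc]
          constructor
          · exact_mod_cast hm2.1
          · exact_mod_cast hm2.2
        · rw [Function.update_of_ne hj, Function.update_of_ne hj, Finset.mem_Icc]
          have h3 := hr2 j
          rw [← e2, abs_le] at h3
          constructor
          · exact_mod_cast h3.1
          · exact_mod_cast h3.2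
      refine ⟨k, hk, ⟨_, hmem⟩, ?_, ?_⟩
      · simp only [Function.update_self]
        exact hm.le
      · intro j hj
        simp only [Function.update_of_ne hj]
        have h1 := abs_sub_round (x j / w k)
        have h2 : x j - (round (x j / w k) : ℤ) * w k =
            (x j / w k - (round (x j / w k) : ℤ)) * w k := by
          field_simp
        rw [h2, abs_mul, abs_of_pos hw]
        nlinarith
    · have hs := (summable_main ((d : ℝ) - m) (by linarith)).mul_left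
        ((2 * n + 3) ^ (m + 1) * (2 : ℝ) ^ (d : ℝ))
      have hb : ∀ k : ℕ, (Fintype.card (cells i n k) : ℝ≥0∞) * ENNReal.ofReal (2 * w k) ^ (d : ℝ) ≤
          ENNReal.ofReal ((2 * n + 3) ^ (m + 1) * (2 : ℝ) ^ (d : ℝ) *
            (2 : ℝ) ^ ((k : ℝ) - ((d : ℝ) - m) * (k : ℝ) ^ 2)) := by
        intro k
        have hw := w_pos k
        rw [ENNReal.ofReal_rpow_of_nonneg (by positivity) (by linarith), Fintype.card_coe,
          ← ENNReal.ofReal_natCast, ← ENNReal.ofReal_mul (Nat.cast_nonneg _)]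
        apply ENNReal.ofReal_le_ofReal
        have h1 := cells_card i n k
        rw [Real.mul_rpow (by norm_num) hw.le]
        have h2 : w k ^ (d : ℝ) = (2 : ℝ) ^ (-((d : ℝ) * (k : ℝ) ^ 2)) := by
          unfold w
          rw [one_div, inv_pow, ← Real.rpow_natCast, ← Real.rpow_neg (by norm_num),
            ← Real.rpow_mul (by norm_num)]
          congr 1
          push_cast
          ring
        have h3 : (2 : ℝ) ^ k * (2 ^ (k ^ 2)) ^ m * (2 : ℝ) ^ (-((d : ℝ) * (k : ℝ) ^ 2)) =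
            (2 : ℝ) ^ ((k : ℝ) - ((d : ℝ) - m) * (k : ℝ) ^ 2) := by
          rw [← pow_mul, ← Real.rpow_natCast 2 k, ← Real.rpow_natCast 2 (k ^ 2 * m),
            ← Real.rpow_add (by norm_num), ← Real.rpow_add (by norm_num)]
          congr 1
          push_cast
          ring
        rw [h2, ← h3]
        calc ((cells i n k).card : ℝ) * (2 ^ (d : ℝ) * 2 ^ (-((d : ℝ) * (k : ℝ) ^ 2)))
            ≤ ((2 * n + 3) ^ (m + 1) * (2 ^ k * (2 ^ (k ^ 2)) ^ m)) *
              (2 ^ (d : ℝ) * 2 ^ (-((d : ℝ) * (k : ℝ) ^ 2))) := by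
              apply mul_le_mul_of_nonneg_right h1
              positivity
          _ = _ := by ring
      refine ne_top_of_le_ne_top ?_ (ENNReal.tsum_le_tsum hb)
      rw [← ENNReal.ofReal_tsum_of_nonneg (fun k => by positivity) hs]
      exact ENNReal.ofReal_ne_top
  rw [hzero] at hd
  exact ENNReal.zero_ne_top hd

/-- The compact pieces: points of a closed dyadic cube of level `j` which stay away from the
dyadic grids of all levels `k ≥ j`. -/
def C (j : ℕ) (q : Fin (m + 1) → ℤ) : Set (Fin (m + 1) → ℝ) :=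
  {x | (∀ k ≥ j, ∀ i, ∀ l : ℤ, w k ≤ |x i - l / 2 ^ k|) ∧
    ∀ i, (q i : ℝ) / 2 ^ j ≤ x i ∧ x i ≤ (q i + 1) / 2 ^ j}

theorem isClosed_C (j : ℕ) (q : Fin (m + 1) → ℤ) : IsClosed (C j q) := by
  have : C j q = (⋂ k ≥ j, ⋂ i, ⋂ l : ℤ, {x : Fin (m + 1) → ℝ | w k ≤ |x i - l / 2 ^ k|}) ∩
      ⋂ i, ({x : Fin (m + 1) → ℝ | (q i : ℝ) / 2 ^ j ≤ x i} ∩
        {x : Fin (m + 1) → ℝ | x i ≤ (q i + 1) / 2 ^ j}) := by
    ext x
    simp only [C, mem_ofPred_eq, mem_inter_iff, mem_iInter]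
  rw [this]
  refine IsClosed.inter ?_ ?_
  · refine isClosed_iInter fun k => isClosed_iInter fun _ => isClosed_iInter fun i =>
      isClosed_iInter fun m => isClosed_le continuous_const ?_
    fun_prop
  · refine isClosed_iInter fun i => IsClosed.inter (isClosed_le continuous_const ?_)
      (isClosed_le ?_ continuous_const)
    · fun_prop
    · fun_prop

theorem cover_C (x : Fin (m + 1) → ℝ) : (∃ i, x ∈ Z i) ∨ ∃ j q, x ∈ C j q := by
  by_cases h0 : ∃ i, x ∈ Z i
  · exact Or.inl h0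
  right
  push Not at h0
  simp only [Z, mem_ofPred_eq, not_forall, not_exists, not_and, not_lt] at h0
  choose N hN using h0
  obtain ⟨M, hM⟩ : ∃ M, ∀ i, N i ≤ M :=
    ⟨Finset.univ.sup N, fun i => Finset.le_sup (Finset.mem_univ i)⟩
  refine ⟨M, fun i => ⌊x i * 2 ^ M⌋, ?_, ?_⟩
  · intro k hk i l
    exact hN i k ((hM i).trans hk) l
  · intro i
    have h2 : (0 : ℝ) < 2 ^ M := by positivity
    constructor
    · rw [div_le_iff₀ h2]
      exact Int.floor_le _
    · rw [le_div_iff₀ h2]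
      exact (Int.lt_floor_add_one _).le

/-- A set of dimension larger than `s ≥ m` has a piece of dimension larger than `s`. -/
theorem exists_piece (A : Set (Fin (m + 1) → ℝ)) (s : ℝ≥0∞) (hs : (m : ℝ≥0∞) ≤ s)
    (hA : s < dimH A) : ∃ j q, s < dimH (A ∩ C j q) := by
  by_contra hcon
  push Not at hcon
  have hcov : A ⊆ (⋃ i : Fin (m + 1), Z i) ∪ ⋃ p : ℕ × (Fin (m + 1) → ℤ), A ∩ C p.1 p.2 := by
    intro x hx
    rcases cover_C x with ⟨i, h⟩ | ⟨j, q, h⟩
    · exact Or.inl (mem_iUnion.mpr ⟨i, h⟩)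
    · exact Or.inr (mem_iUnion.mpr ⟨(j, q), hx, h⟩)
  have h1 := dimH_mono hcov
  rw [dimH_union, dimH_iUnion, dimH_iUnion] at h1
  refine absurd (h1.trans (max_le (iSup_le fun i => (dimH_Z i).trans hs)
    (iSup_le fun p => hcon p.1 p.2))) (not_le.mpr hA)

/-- Dyadic floor. -/
noncomputable def fl (k : ℕ) (u : ℝ) : ℤ := ⌊2 ^ k * u⌋

/-- Dyadic digit of level `k + 1`. -/
noncomputable def dg (k : ℕ) (u : ℝ) : ℤ := fl (k + 1) u - 2 * fl k u

theorem dg_range (k : ℕ) (u : ℝ) : 0 ≤ dg k u ∧ dg k u ≤ 1 := by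
  unfold dg fl
  have h1 := Int.floor_le ((2 : ℝ) ^ k * u)
  have h2 := Int.lt_floor_add_one ((2 : ℝ) ^ k * u)
  have h3 := Int.floor_le ((2 : ℝ) ^ (k + 1) * u)
  have h4 := Int.lt_floor_add_one ((2 : ℝ) ^ (k + 1) * u)
  have h5 : (2 : ℝ) ^ (k + 1) * u = 2 * (2 ^ k * u) := by ring
  rw [h5] at h3 h4 ⊢
  constructor
  · have : 2 * ⌊(2 : ℝ) ^ k * u⌋ ≤ ⌊2 * ((2 : ℝ) ^ k * u)⌋ := by
      rw [Int.le_floor]
      push_cast
      linarith
    omega
  · have : (⌊2 * ((2 : ℝ) ^ k * u)⌋ : ℝ) < 2 * ⌊(2 : ℝ) ^ k * u⌋ + 2 := by linarith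
    have h6 : ⌊2 * ((2 : ℝ) ^ k * u)⌋ < 2 * ⌊(2 : ℝ) ^ k * u⌋ + 2 := by exact_mod_cast this
    omega

/-- Enumeration of the `0`-`1`-vectors. -/
noncomputable def code (m : ℕ) : (Fin (m + 1) → Bool) ≃ Fin (2 ^ (m + 1)) :=
  Fintype.equivFinOfCardEq (by simp)

/-- The combined digit. -/
noncomputable def dd (k : ℕ) (x : Fin (m + 1) → ℝ) : ℕ :=
  (code m fun i => decide (dg k (x i) = 1)).1

theorem dd_range (k : ℕ) (x : Fin (m + 1) → ℝ) : (dd k x : ℝ) ≤ 2 ^ (m + 1) - 1 := by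
  have h1 : dd k x + 1 ≤ 2 ^ (m + 1) := (code m fun i => decide (dg k (x i) = 1)).2
  have h2 : ((dd k x + 1 : ℕ) : ℝ) ≤ ((2 ^ (m + 1) : ℕ) : ℝ) := by exact_mod_cast h1
  push_cast at h2
  linarith

theorem dd_congr {k : ℕ} {x y : Fin (m + 1) → ℝ} (h : ∀ i, dg k (x i) = dg k (y i)) :
    dd k x = dd k y := by
  unfold dd
  simp only [h]

theorem dg_of_dd {k : ℕ} {x y : Fin (m + 1) → ℝ} (h : dd k x = dd k y) (i : Fin (m + 1)) :
    dg k (x i) = dg k (y i) := by
  have h1 := (code m).injective (Fin.ext h)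
  have h2 := congrFun h1 i
  have h3 := dg_range k (x i)
  have h4 := dg_range k (y i)
  have h5 : dg k (x i) = 1 ↔ dg k (y i) = 1 := by
    simpa using h2
  omega

/-- The coding map. -/
noncomputable def phi (β : ℝ) (j : ℕ) (x : Fin (m + 1) → ℝ) : ℝ :=
  ∑' k : ℕ, (dd (j + k) x : ℝ) * (β⁻¹) ^ k

theorem continuousOn_fl {j : ℕ} {q : Fin (m + 1) → ℤ} {k : ℕ} (hk : j ≤ k) (i : Fin (m + 1)) :
    ∀ x ∈ C j q, ∀ᶠ y in 𝓝 x, fl k (y i) = fl k (x i) := by
  intro x hx
  have h2 : (0 : ℝ) < 2 ^ k := by positivity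
  have h1 := Int.floor_le ((2 : ℝ) ^ k * x i)
  have h3 := Int.lt_floor_add_one ((2 : ℝ) ^ k * x i)
  have h4 : (⌊(2 : ℝ) ^ k * x i⌋ : ℝ) ≠ 2 ^ k * x i := by
    intro h
    have h5 := hx.1 k hk i ⌊(2 : ℝ) ^ k * x i⌋
    rw [h] at h5
    have h6 : (2 : ℝ) ^ k * x i / 2 ^ k = x i := by field_simp
    rw [h6, sub_self, abs_zero] at h5
    exact absurd h5 (not_le.mpr (w_pos k))
  have h5 := lt_of_le_of_ne h1 h4
  have hcont : Continuous fun y : Fin (m + 1) → ℝ => (2 : ℝ) ^ k * y i := by fun_prop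
  have h6 := hcont.continuousAt.eventually (Ioo_mem_nhds h5 h3 : Ioo _ _ ∈ 𝓝 ((2 : ℝ) ^ k * x i))
  filter_upwards [h6] with y hy
  unfold fl
  rw [Int.floor_eq_iff]
  exact ⟨hy.1.le, hy.2⟩

theorem continuousOn_dd {j : ℕ} {q : Fin (m + 1) → ℤ} {k : ℕ} (hk : j ≤ k) :
    ContinuousOn (fun x => (dd k x : ℝ)) (C j q) := by
  intro x hx
  apply ContinuousAt.continuousWithinAt
  have h : (fun y : Fin (m + 1) → ℝ => (dd k y : ℝ)) =ᶠ[𝓝 x] fun _ => (dd k x : ℝ) := by
    filter_upwards [eventually_all.mpr fun i => continuousOn_fl hk i x hx,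
      eventually_all.mpr fun i => continuousOn_fl (hk.trans (Nat.le_succ k)) i x hx] with y h0 h1
    have h2 : dd k y = dd k x := dd_congr fun i => by
      simp only [dg]
      have h3 : fl (k + 1) (y i) = fl (k + 1) (x i) := h1 i
      rw [h0 i, h3]
    simp only [h2]
  exact continuousAt_const.congr h.symm

theorem phi_aux {β : ℝ} (hβ : 2 ^ (m + 1) < β) : 0 < β⁻¹ ∧ β⁻¹ < 1 ∧ 1 < β := by
  have h1 : (1 : ℝ) ≤ 2 ^ (m + 1) := one_le_pow₀ (by norm_num)
  exact ⟨inv_pos.mpr (by linarith), inv_lt_one_of_one_lt₀ (by linarith), by linarith⟩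

theorem phi_term {β : ℝ} (hβ : 2 ^ (m + 1) < β) (j k : ℕ) (x : Fin (m + 1) → ℝ) :
    ‖(dd (j + k) x : ℝ) * (β⁻¹) ^ k‖ ≤ (2 ^ (m + 1) - 1) * (β⁻¹) ^ k := by
  obtain ⟨hb0, hb1, _⟩ := phi_aux hβ
  have h1 := dd_range (j + k) x
  rw [norm_mul, Real.norm_of_nonneg (pow_nonneg hb0.le k)]
  apply mul_le_mul_of_nonneg_right _ (pow_nonneg hb0.le k)
  rwa [Real.norm_of_nonneg (Nat.cast_nonneg _)]

theorem summable_phi {β : ℝ} (hβ : 2 ^ (m + 1) < β) (j : ℕ) (x : Fin (m + 1) → ℝ) :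
    Summable fun k : ℕ => (dd (j + k) x : ℝ) * (β⁻¹) ^ k := by
  obtain ⟨hb0, hb1, _⟩ := phi_aux hβ
  exact Summable.of_norm_bounded ((summable_geometric_of_lt_one hb0.le hb1).mul_left _)
    (phi_term hβ j · x)

theorem continuousOn_phi {β : ℝ} (hβ : 2 ^ (m + 1) < β) (j : ℕ) (q : Fin (m + 1) → ℤ) :
    ContinuousOn (phi β j) (C j q) := by
  obtain ⟨hb0, hb1, _⟩ := phi_aux hβ
  unfold phi
  apply continuousOn_tsum (u := fun k => (2 ^ (m + 1) - 1) * (β⁻¹) ^ k)
  · intro k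
    exact (continuousOn_dd (Nat.le_add_right j k)).mul continuousOn_const
  · exact (summable_geometric_of_lt_one hb0.le hb1).mul_left _
  · intro k x _
    exact phi_term hβ j k x

theorem phi_nonneg {β : ℝ} (hβ : 2 ^ (m + 1) < β) (j : ℕ) (x : Fin (m + 1) → ℝ) :
    0 ≤ phi β j x := by
  obtain ⟨hb0, hb1, _⟩ := phi_aux hβ
  exact tsum_nonneg fun k => mul_nonneg (Nat.cast_nonneg _) (pow_nonneg hb0.le k)

theorem phi_le {β : ℝ} (hβ : 2 ^ (m + 1) < β) (j : ℕ) (x : Fin (m + 1) → ℝ) :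
    phi β j x ≤ (2 ^ (m + 1) - 1) * (1 - β⁻¹)⁻¹ := by
  obtain ⟨hb0, hb1, _⟩ := phi_aux hβ
  have h1 := (summable_phi hβ j x).tsum_le_tsum (fun k => (le_abs_self _).trans (phi_term hβ j k x))
    ((summable_geometric_of_lt_one hb0.le hb1).mul_left _)
  rw [tsum_mul_left, tsum_geometric_of_lt_one hb0.le hb1] at h1
  exact h1

theorem fl_C {j : ℕ} {q : Fin (m + 1) → ℤ} {x : Fin (m + 1) → ℝ} (hx : x ∈ C j q)
    (i : Fin (m + 1)) : fl j (x i) = q i := by
  have h2 : (0 : ℝ) < 2 ^ j := by positivity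
  have h1 := hx.2 i
  have h3 := hx.1 j le_rfl i (q i + 1)
  unfold fl
  rw [Int.floor_eq_iff]
  rw [div_le_iff₀ h2, le_div_iff₀ h2] at h1
  refine ⟨by linarith [h1.1], ?_⟩
  have h4 : x i ≠ (q i + 1) / 2 ^ j := by
    intro h
    rw [h] at h3
    push_cast at h3
    rw [sub_self, abs_zero] at h3
    exact absurd h3 (not_le.mpr (w_pos j))
  have h5 : 2 ^ j * x i ≠ q i + 1 := by
    intro h
    apply h4
    rw [← h]
    field_simp
  exact lt_of_le_of_ne (by linarith [h1.2]) h5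

theorem abs_sub_le_of_fl {k : ℕ} {u v : ℝ} (h : fl k u = fl k v) : |u - v| ≤ (1 / 2) ^ k := by
  unfold fl at h
  have h1 := Int.floor_le ((2 : ℝ) ^ k * u)
  have h2 := Int.lt_floor_add_one ((2 : ℝ) ^ k * u)
  have h3 := Int.floor_le ((2 : ℝ) ^ k * v)
  have h4 := Int.lt_floor_add_one ((2 : ℝ) ^ k * v)
  rw [h] at h1 h2
  have h5 : (0 : ℝ) < 2 ^ k := by positivity
  have h6 : (1 / 2 : ℝ) ^ k * 2 ^ k = 1 := by
    rw [← mul_pow]
    norm_num
  rw [abs_le]
  constructor
  · by_contra hcon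
    push Not at hcon
    nlinarith
  · by_contra hcon
    push Not at hcon
    nlinarith

theorem key_lower {β : ℝ} (hβ : 2 ^ (m + 1) < β) {j : ℕ} {q : Fin (m + 1) → ℤ}
    {x y : Fin (m + 1) → ℝ} (hx : x ∈ C j q) (hy : y ∈ C j q) (hxy : x ≠ y) :
    ∃ k : ℕ, dist x y ≤ (1 / 2) ^ k ∧
      (1 - (2 ^ (m + 1) - 1) / (β - 1)) * (β⁻¹) ^ k ≤ |phi β j x - phi β j y| := by
  classical
  obtain ⟨hb0, hb1, hb2⟩ := phi_aux hβ
  have hD : (0 : ℝ) ≤ 2 ^ (m + 1) - 1 := by
    have : (1 : ℝ) ≤ 2 ^ (m + 1) := one_le_pow₀ (by norm_num)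
    linarith
  set D : ℝ := 2 ^ (m + 1) - 1 with hDdef
  have hex : ∃ k, ∃ i, fl (j + k + 1) (x i) ≠ fl (j + k + 1) (y i) := by
    by_contra hcon
    push Not at hcon
    apply hxy
    ext i
    have h1 : ∀ k : ℕ, |x i - y i| ≤ (1 / 2) ^ k := by
      intro k
      refine (abs_sub_le_of_fl (hcon k i)).trans ?_
      exact pow_le_pow_of_le_one (by norm_num) (by norm_num) (by omega)
    have h2 : Tendsto (fun k : ℕ => (1 / 2 : ℝ) ^ k) atTop (𝓝 0) :=
      tendsto_pow_atTop_nhds_zero_of_lt_one (by norm_num) (by norm_num)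
    have h3 : |x i - y i| ≤ 0 := ge_of_tendsto' h2 h1
    have h4 := le_antisymm h3 (abs_nonneg _)
    exact sub_eq_zero.mp (abs_eq_zero.mp h4)
  let k := Nat.find hex
  have hk : ∃ i, fl (j + k + 1) (x i) ≠ fl (j + k + 1) (y i) := Nat.find_spec hex
  have hk' : ∀ l < k, ∀ i, fl (j + l + 1) (x i) = fl (j + l + 1) (y i) := by
    intro l hl i
    have := Nat.find_min hex hl
    push Not at this
    exact this i
  have hfl : ∀ l ≤ k, ∀ i, fl (j + l) (x i) = fl (j + l) (y i) := by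
    intro l hl i
    rcases Nat.eq_zero_or_pos l with h | h
    · subst h
      rw [Nat.add_zero, fl_C hx, fl_C hy]
    · obtain ⟨l', rfl⟩ : ∃ l', l = l' + 1 := ⟨l - 1, by omega⟩
      exact hk' l' (by omega) i
  refine ⟨k, ?_, ?_⟩
  · rw [dist_pi_le_iff (by positivity)]
    intro i
    rw [Real.dist_eq]
    refine (abs_sub_le_of_fl (hfl k le_rfl i)).trans ?_
    exact pow_le_pow_of_le_one (by norm_num) (by norm_num) (by omega)
  · let u : ℕ → ℝ := fun l => ((dd (j + l) x : ℝ) - dd (j + l) y) * (β⁻¹) ^ l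
    have hbound : ∀ l, |((dd (j + l) x : ℝ) - dd (j + l) y)| ≤ D := by
      intro l
      have h1 := dd_range (j + l) x
      have h2 := dd_range (j + l) y
      have h3 : (0 : ℝ) ≤ dd (j + l) x := Nat.cast_nonneg _
      have h4 : (0 : ℝ) ≤ dd (j + l) y := Nat.cast_nonneg _
      rw [abs_le]
      constructor <;> linarith
    have hdiff : phi β j x - phi β j y = ∑' l, u l := by
      unfold phi
      rw [← (summable_phi hβ j x).tsum_sub (summable_phi hβ j y)]
      congr 1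
      funext l
      simp only [u]
      ring
    have husum : Summable u := by
      have := (summable_phi hβ j x).sub (summable_phi hβ j y)
      refine this.congr ?_
      intro l
      simp only [u]
      ring
    have hsplit := husum.sum_add_tsum_nat_add (k + 1)
    have hzero : ∀ l < k, u l = 0 := by
      intro l hl
      have h1 : dd (j + l) x = dd (j + l) y := dd_congr fun i => by
        simp only [dg]
        rw [hfl l hl.le i, hk' l hl i]
      simp only [u]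
      rw [h1, sub_self, zero_mul]
    have hfin : ∑ l ∈ Finset.range (k + 1), u l = u k := by
      rw [Finset.sum_range_succ, Finset.sum_eq_zero, zero_add]
      intro l hl
      exact hzero l (Finset.mem_range.mp hl)
    have huk : (β⁻¹) ^ k ≤ |u k| := by
      have h1 : dd (j + k) x ≠ dd (j + k) y := by
        intro h
        obtain ⟨i, hi⟩ := hk
        apply hi
        have h2 := dg_of_dd h i
        simp only [dg] at h2
        rw [hfl k le_rfl i] at h2
        omega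
      have h2 : (1 : ℤ) ≤ |(dd (j + k) x : ℤ) - dd (j + k) y| :=
        Int.one_le_abs (sub_ne_zero.mpr (by exact_mod_cast h1))
      have h3 : (1 : ℝ) ≤ |(dd (j + k) x : ℝ) - dd (j + k) y| := by exact_mod_cast h2
      simp only [u]
      rw [abs_mul, abs_of_nonneg (pow_nonneg hb0.le k)]
      have := pow_nonneg hb0.le k
      nlinarith
    have htail : |∑' l, u (l + (k + 1))| ≤ D / (β - 1) * (β⁻¹) ^ k := by
      have h1 : HasSum (fun l : ℕ => D * (β⁻¹) ^ (k + 1) * (β⁻¹) ^ l)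
          (D * (β⁻¹) ^ (k + 1) * (1 - β⁻¹)⁻¹) :=
        (hasSum_geometric_of_lt_one hb0.le hb1).mul_left _
      have h2 : ∀ l, ‖u (l + (k + 1))‖ ≤ D * (β⁻¹) ^ (k + 1) * (β⁻¹) ^ l := by
        intro l
        simp only [u]
        rw [norm_mul, Real.norm_eq_abs, Real.norm_of_nonneg (pow_nonneg hb0.le _), pow_add]
        have h3 := hbound (l + (k + 1))
        have h4 : (0 : ℝ) ≤ (β⁻¹) ^ l * (β⁻¹) ^ (k + 1) := by positivity
        nlinarith
      have h3 := tsum_of_norm_bounded h1 h2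
      rw [Real.norm_eq_abs] at h3
      refine h3.trans (le_of_eq ?_)
      have h4 : β ≠ 0 := by linarith
      have h5 : β - 1 ≠ 0 := by
        intro h
        linarith
      rw [pow_succ]
      have h6 : (1 - β⁻¹)⁻¹ = β / (β - 1) := by
        rw [eq_div_iff h5]
        have : (1 - β⁻¹) = (β - 1) / β := by field_simp
        rw [this]
        field_simp
      rw [h6]
      field_simp
    rw [hdiff, ← hsplit, hfin]
    have h1 : |u k| - |∑' l, u (l + (k + 1))| ≤ |u k + ∑' l, u (l + (k + 1))| := by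
      have := abs_sub_abs_le_abs_sub (u k) (-(∑' l, u (l + (k + 1))))
      rw [abs_neg, sub_neg_eq_add] at this
      exact this
    have h2 : (1 - D / (β - 1)) * (β⁻¹) ^ k = (β⁻¹) ^ k - D / (β - 1) * (β⁻¹) ^ k := by ring
    rw [h2]
    linarith

theorem beta_lt {a : ℝ} (ha : ((m + 1 : ℕ) : ℝ) < a) : (2 : ℝ) ^ (m + 1) < 2 ^ a := by
  rw [← Real.rpow_natCast]
  exact Real.rpow_lt_rpow_of_exponent_lt (by norm_num) ha

theorem co_holder {a : ℝ} (ha : ((m + 1 : ℕ) : ℝ) < a) (j : ℕ) (q : Fin (m + 1) → ℤ) :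
    ∃ K : ℝ, 0 < K ∧ ∀ x ∈ C j q, ∀ y ∈ C j q,
      dist x y ≤ K * |phi (2 ^ a) j x - phi (2 ^ a) j y| ^ a⁻¹ := by
  have hβ := beta_lt ha
  have hb2 := (phi_aux hβ).2.2
  have hD : (1 : ℝ) ≤ 2 ^ (m + 1) := one_le_pow₀ (by norm_num)
  set β : ℝ := 2 ^ a with hβdef
  have hc : 0 < 1 - (2 ^ (m + 1) - 1) / (β - 1) := by
    have h1 : (2 ^ (m + 1) - 1) / (β - 1) < 1 := by
      rw [div_lt_one (by linarith)]
      linarith
    linarith
  set c := 1 - (2 ^ (m + 1) - 1) / (β - 1) with hcdef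
  have ha0 : 0 < a := lt_of_le_of_lt (Nat.cast_nonneg _) ha
  refine ⟨(c⁻¹) ^ a⁻¹, by positivity, ?_⟩
  intro x hx y hy
  by_cases hxy : x = y
  · subst hxy
    rw [dist_self]
    positivity
  obtain ⟨k, h1, h2⟩ := key_lower hβ hx hy hxy
  refine h1.trans ?_
  have h3 : ((1 : ℝ) / 2) ^ k = ((β⁻¹) ^ k) ^ a⁻¹ := by
    have h5 : ((1 : ℝ) / 2) ^ a = β⁻¹ := by
      rw [hβdef, one_div, Real.inv_rpow (by norm_num)]
    have h4 : (β⁻¹) ^ k = (((1 : ℝ) / 2) ^ k) ^ a := by
      rw [← h5, ← Real.rpow_natCast (((1 : ℝ) / 2) ^ a) k, ← Real.rpow_natCast ((1 : ℝ) / 2) k,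
        ← Real.rpow_mul (by norm_num), ← Real.rpow_mul (by norm_num), mul_comm]
    rw [h4, ← Real.rpow_mul (by positivity), mul_inv_cancel₀ ha0.ne', Real.rpow_one]
  rw [h3, ← Real.mul_rpow (by positivity) (abs_nonneg _)]
  apply Real.rpow_le_rpow (by positivity) _ (by positivity)
  rw [← div_eq_inv_mul, le_div_iff₀ hc, mul_comm]
  exact h2

/-- The dimension and maps with Hölder continuous inverse. -/
theorem dimH_le_of_coholder {X : Type*} [MetricSpace X] {a K : ℝ} (ha0 : 0 < a) (hK : 0 < K)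
    (A : Set X) (g : X → ℝ)
    (hKb : ∀ x ∈ A, ∀ y ∈ A, dist x y ≤ K * |g x - g y| ^ a⁻¹) :
    dimH A ≤ ENNReal.ofReal a * dimH (g '' A) := by
  classical
  rcases A.eq_empty_or_nonempty with hemp | hne
  · rw [hemp, dimH_empty]
    exact bot_le
  have : Nonempty X := ⟨hne.some⟩
  have hinj : InjOn g A := by
    intro x hx y hy hxy
    have h1 := hKb x hx y hy
    rw [hxy, sub_self, abs_zero, Real.zero_rpow (inv_ne_zero ha0.ne'), mul_zero] at h1
    exact dist_le_zero.mp h1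
  let h : ℝ → X := Function.invFunOn g A
  have hg : ∀ x ∈ A, h (g x) = x := fun x hx => hinj.leftInvOn_invFunOn hx
  let r : ℝ≥0 := ⟨a⁻¹, by positivity⟩
  have hH : HolderOnWith ⟨K, hK.le⟩ r h (g '' A) := by
    rintro _ ⟨x, hx, rfl⟩ _ ⟨y, hy, rfl⟩
    rw [hg x hx, hg y hy, edist_dist, edist_dist, Real.dist_eq]
    have h1 := hKb x hx y hy
    have h2 : ENNReal.ofReal (dist x y) ≤ ENNReal.ofReal (K * |g x - g y| ^ a⁻¹) :=
      ENNReal.ofReal_le_ofReal h1
    refine h2.trans (le_of_eq ?_)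
    rw [ENNReal.ofReal_mul hK.le, ENNReal.ofReal_rpow_of_nonneg (abs_nonneg _) (by positivity)]
    congr 1
    exact ENNReal.ofReal_eq_coe_nnreal hK.le
  have hr : 0 < r := by
    change (0 : ℝ) < a⁻¹
    positivity
  have h1 := hH.dimH_image_le hr
  have h2 : h '' (g '' A) = A := by
    rw [image_image]
    have : EqOn (fun x => h (g x)) id A := hg
    rw [this.image_eq, image_id]
  rw [h2] at h1
  refine h1.trans (le_of_eq ?_)
  have h3 : (r : ℝ≥0∞) = ENNReal.ofReal a⁻¹ := (ENNReal.ofReal_eq_coe_nnreal _).symm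
  rw [h3, ENNReal.div_eq_inv_mul, ENNReal.ofReal_inv_of_pos ha0, inv_inv]

end Pool.Agent.Y388.CI
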