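import Mathlib
import Pool.Agent.Y388.CI.Piece

/-!
Every set `E ⊆ ℝ^n` with `dim E > n - 1` has a continuous real image of dimension at least
`dim E / n`.
-/

set_option autoImplicit false

namespace Pool.Agent.Y388.CI

open Set Filter Topology MeasureTheory
open scoped ENNReal NNReal

variable {m : ℕ}

theorem dimH_hyper (c : ℝ) : dimH {x : Fin (m + 1) → ℝ | x 0 = c} ≤ m := by
  have h1 : {x : Fin (m + 1) → ℝ | x 0 = c} ⊆
      (fun y : Fin m → ℝ => (Fin.cons c y : Fin (m + 1) → ℝ)) '' univ := by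
    intro x hx
    refine ⟨Fin.tail x, mem_univ _, ?_⟩
    have hx' : x 0 = c := hx
    simp only
    rw [← hx', Fin.cons_self_tail]
  have h2 : LipschitzWith 1 (fun y : Fin m → ℝ => (Fin.cons c y : Fin (m + 1) → ℝ)) := by
    apply LipschitzWith.of_dist_le_mul
    intro x y
    rw [NNReal.coe_one, one_mul, dist_pi_le_iff dist_nonneg]
    intro i
    refine Fin.cases ?_ (fun i => ?_) i
    · simp
    · simpa using dist_le_pi_dist x y i
  refine (dimH_mono h1).trans ((h2.dimH_image_le univ).trans ?_)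
  rw [Real.dimH_univ_pi_fin]

theorem split_set (A : Set (Fin (m + 1) → ℝ)) (c : ℝ) (s : ℝ≥0∞) (hs : (m : ℝ≥0∞) ≤ s)
    (h1 : dimH (A ∩ {x | x 0 < c}) ≤ s) (h2 : dimH (A ∩ {x | c < x 0}) ≤ s) : dimH A ≤ s := by
  have hcov : A ⊆ (A ∩ {x | x 0 < c}) ∪ (A ∩ {x | c < x 0}) ∪ {x | x 0 = c} := by
    intro x hx
    rcases lt_trichotomy (x 0) c with h | h | h
    · exact Or.inl (Or.inl ⟨hx, h⟩)
    · exact Or.inr h
    · exact Or.inl (Or.inr ⟨hx, h⟩)
  refine (dimH_mono hcov).trans ?_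
  rw [dimH_union, dimH_union]
  exact max_le (max_le h1 h2) ((dimH_hyper c).trans hs)

theorem split (A : Set (Fin (m + 1) → ℝ)) (s : ℝ≥0∞) (hs : (m : ℝ≥0∞) ≤ s) (hA : s < dimH A) :
    ∃ c : ℝ, s < dimH (A ∩ {x | x 0 < c}) ∧ s < dimH (A ∩ {x | c < x 0}) := by
  by_contra hcon
  push Not at hcon
  have hor : ∀ c, dimH (A ∩ {x | x 0 < c}) ≤ s ∨ dimH (A ∩ {x | c < x 0}) ≤ s := by
    intro c
    by_cases h : s < dimH (A ∩ {x | x 0 < c})
    · exact Or.inr (hcon c h)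
    · exact Or.inl (not_lt.mp h)
  let S : Set ℝ := {c | dimH (A ∩ {x | x 0 < c}) ≤ s}
  have hdown : ∀ c ∈ S, ∀ c' ≤ c, c' ∈ S := by
    intro c hc c' hcc'
    refine (dimH_mono ?_).trans hc
    rintro x ⟨h1, h2⟩
    exact ⟨h1, lt_of_lt_of_le h2 hcc'⟩
  -- S is not empty
  have hne : S.Nonempty := by
    by_contra h
    rw [not_nonempty_iff_eq_empty] at h
    have h1 : ∀ c, dimH (A ∩ {x | c < x 0}) ≤ s := by
      intro c
      refine (hor c).resolve_left fun h2 => ?_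
      have : c ∈ S := h2
      rw [h] at this
      exact this
    have hcov : A ⊆ ⋃ k : ℕ, A ∩ {x | -(k : ℝ) < x 0} := by
      intro x hx
      obtain ⟨k, hk⟩ := exists_nat_gt (-(x 0))
      exact mem_iUnion.mpr ⟨k, hx, by
        change -(k : ℝ) < x 0
        linarith⟩
    have h2 := dimH_mono hcov
    rw [dimH_iUnion] at h2
    exact absurd (h2.trans (iSup_le fun k => h1 _)) (not_le.mpr hA)
  have hbdd : BddAbove S := by
    by_contra h
    have h1 : ∀ c, c ∈ S := by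
      intro c
      by_contra hc
      apply h
      refine ⟨c, fun c' hc' => ?_⟩
      by_contra hlt
      exact hc (hdown c' hc' c (not_le.mp hlt).le)
    have hcov : A ⊆ ⋃ k : ℕ, A ∩ {x | x 0 < (k : ℝ)} := by
      intro x hx
      obtain ⟨k, hk⟩ := exists_nat_gt (x 0)
      exact mem_iUnion.mpr ⟨k, hx, hk⟩
    have h2 := dimH_mono hcov
    rw [dimH_iUnion] at h2
    exact absurd (h2.trans (iSup_le fun k => h1 _)) (not_le.mpr hA)
  set c := sSup S with hcdef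
  refine absurd (split_set A c s hs ?_ ?_) (not_le.mpr hA)
  · have hcov : A ∩ {x | x 0 < c} ⊆ ⋃ k : ℕ, A ∩ {x | x 0 < c - 1 / ((k : ℝ) + 1)} := by
      rintro x ⟨hx, hxc⟩
      have hxc' : x 0 < c := hxc
      obtain ⟨k, hk⟩ := exists_nat_one_div_lt (sub_pos.mpr hxc')
      refine mem_iUnion.mpr ⟨k, hx, ?_⟩
      change x 0 < c - 1 / ((k : ℝ) + 1)
      linarith
    refine (dimH_mono hcov).trans ?_
    rw [dimH_iUnion]
    refine iSup_le fun k => ?_
    have hk : c - 1 / ((k : ℝ) + 1) < c := by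
      have : (0 : ℝ) < 1 / ((k : ℝ) + 1) := by positivity
      linarith
    obtain ⟨c', hc', hlt⟩ := exists_lt_of_lt_csSup hne hk
    exact hdown c' hc' _ hlt.le
  · have hcov : A ∩ {x | c < x 0} ⊆ ⋃ k : ℕ, A ∩ {x | c + 1 / ((k : ℝ) + 1) < x 0} := by
      rintro x ⟨hx, hxc⟩
      have hxc' : c < x 0 := hxc
      obtain ⟨k, hk⟩ := exists_nat_one_div_lt (sub_pos.mpr hxc')
      refine mem_iUnion.mpr ⟨k, hx, ?_⟩
      change c + 1 / ((k : ℝ) + 1) < x 0
      linarith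
    refine (dimH_mono hcov).trans ?_
    rw [dimH_iUnion]
    refine iSup_le fun k => ?_
    refine (hor _).resolve_left fun h2 => ?_
    have h3 : c + 1 / ((k : ℝ) + 1) ≤ c := le_csSup hbdd h2
    have : (0 : ℝ) < 1 / ((k : ℝ) + 1) := by positivity
    linarith

/-- Splitting off an open set. -/
theorem step (E : Set (Fin (m + 1) → ℝ)) (s : ℝ≥0∞) (hs : (m : ℝ≥0∞) ≤ s)
    (V : Set (Fin (m + 1) → ℝ)) (hV : IsOpen V) (hsE : s < dimH (E ∩ V)) :
    ∃ U V' : Set (Fin (m + 1) → ℝ), IsOpen U ∧ IsOpen V' ∧ U ⊆ V ∧ V' ⊆ V ∧ Disjoint U V' ∧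
      s < dimH (E ∩ U) ∧ dimH (E ∩ V') = dimH (E ∩ V) := by
  obtain ⟨c, h1, h2⟩ := split (E ∩ V) s hs hsE
  have hL : IsOpen {x : Fin (m + 1) → ℝ | x 0 < c} :=
    isOpen_lt (continuous_apply 0) continuous_const
  have hR : IsOpen {x : Fin (m + 1) → ℝ | c < x 0} :=
    isOpen_lt continuous_const (continuous_apply 0)
  have hdis : Disjoint {x : Fin (m + 1) → ℝ | x 0 < c} {x | c < x 0} := by
    rw [Set.disjoint_left]
    intro x hx hx'
    exact lt_asymm (show x 0 < c from hx) hx'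
  rw [inter_assoc] at h1 h2
  by_cases h : dimH (E ∩ (V ∩ {x | x 0 < c})) = dimH (E ∩ V)
  · exact ⟨V ∩ {x | c < x 0}, V ∩ {x | x 0 < c}, hV.inter hR, hV.inter hL, inter_subset_left,
      inter_subset_left, (hdis.symm.mono inter_subset_right inter_subset_right), h2, h⟩
  · refine ⟨V ∩ {x | x 0 < c}, V ∩ {x | c < x 0}, hV.inter hL, hV.inter hR, inter_subset_left,
      inter_subset_left, (hdis.mono inter_subset_right inter_subset_right), h1, ?_⟩
    have hle : dimH (E ∩ (V ∩ {x | c < x 0})) ≤ dimH (E ∩ V) :=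
      dimH_mono (inter_subset_inter_right _ inter_subset_left)
    have hle' : dimH (E ∩ (V ∩ {x | x 0 < c})) < dimH (E ∩ V) :=
      lt_of_le_of_ne (dimH_mono (inter_subset_inter_right _ inter_subset_left)) h
    by_contra hne
    have hlt := lt_of_le_of_ne hle hne
    have h3 := split_set (E ∩ V) c
      (max (dimH (E ∩ (V ∩ {x | x 0 < c}))) (dimH (E ∩ (V ∩ {x | c < x 0}))))
      (hs.trans (h1.le.trans (le_max_left _ _)))
      (by rw [inter_assoc]; exact le_max_left _ _)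
      (by rw [inter_assoc]; exact le_max_right _ _)
    exact absurd h3 (not_le.mpr (max_lt hle' hlt))

/-- Disjoint open sets. -/
theorem exists_disjoint (E : Set (Fin (m + 1) → ℝ)) (s : ℕ → ℝ≥0∞)
    (hs : ∀ k, (m : ℝ≥0∞) ≤ s k) (hsE : ∀ k, s k < dimH E) :
    ∃ U : ℕ → Set (Fin (m + 1) → ℝ), (∀ k, IsOpen (U k)) ∧
      (∀ k l, k ≠ l → Disjoint (U k) (U l)) ∧ ∀ k, s k < dimH (E ∩ U k) := by
  let St := {V : Set (Fin (m + 1) → ℝ) // IsOpen V ∧ dimH (E ∩ V) = dimH E}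
  have h1 : ∀ (k : ℕ) (V : St), ∃ U : Set (Fin (m + 1) → ℝ), ∃ V' : St, IsOpen U ∧ U ⊆ V.1 ∧
      V'.1 ⊆ V.1 ∧ Disjoint U V'.1 ∧ s k < dimH (E ∩ U) := by
    intro k V
    obtain ⟨U, V', a1, a2, a3, a4, a5, a6, a7⟩ := step E (s k) (hs k) V.1 V.2.1
      (by rw [V.2.2]; exact hsE k)
    exact ⟨U, ⟨V', a2, a7.trans V.2.2⟩, a1, a3, a4, a5, a6⟩
  choose U V' b1 b2 b3 b4 b5 using h1
  let V0 : St := ⟨univ, isOpen_univ, by rw [inter_univ]⟩
  let sq : ℕ → St := fun k => Nat.rec V0 (fun k V => V' k V) k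
  have hsq : ∀ k, sq (k + 1) = V' k (sq k) := fun k => rfl
  have hanti : ∀ k l, k ≤ l → (sq l).1 ⊆ (sq k).1 := by
    intro k l hkl
    induction hkl with
    | refl => exact Subset.refl _
    | step _ ih => exact (b3 _ _).trans ih
  have hlt : ∀ k l, k < l → Disjoint (U k (sq k)) (U l (sq l)) := by
    intro k l hkl
    refine (b4 k (sq k)).mono_right ?_
    rw [← hsq]
    exact (b2 l (sq l)).trans (hanti (k + 1) l hkl)
  refine ⟨fun k => U k (sq k), fun k => b1 _ _, ?_, fun k => b5 _ _⟩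
  intro k l hkl
  rcases lt_or_gt_of_ne hkl with h | h
  · exact hlt k l h
  · exact (hlt l k h).symm

/-- The local functions. -/
theorem exists_local (E U : Set (Fin (m + 1) → ℝ)) (hU : IsOpen U) (s : ℝ≥0∞)
    (hs : (m : ℝ≥0∞) ≤ s) (hsE : s < dimH (E ∩ U)) (a : ℝ) (ha : ((m + 1 : ℕ) : ℝ) < a)
    (b : ℝ) (hb : 0 < b) :
    ∃ g : (Fin (m + 1) → ℝ) → ℝ, Continuous g ∧ (∀ x, |g x| ≤ b) ∧ (∀ x, x ∉ U → g x = 0) ∧
      s ≤ ENNReal.ofReal a * dimH (g '' (E ∩ U)) := by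
  obtain ⟨j, q, hjq⟩ := exists_piece (E ∩ U) s hs hsE
  obtain ⟨F, hF1, hF2, hF3, -⟩ := hU.exists_iUnion_isClosed
  obtain ⟨l, hl⟩ : ∃ l, s < dimH ((E ∩ U) ∩ C j q ∩ F l) := by
    by_contra hcon
    push Not at hcon
    have hcov : (E ∩ U) ∩ C j q ⊆ ⋃ l, (E ∩ U) ∩ C j q ∩ F l := by
      rintro x ⟨hx1, hx2⟩
      have hxU : x ∈ ⋃ l, F l := by rw [hF3]; exact hx1.2
      obtain ⟨l, hl⟩ := mem_iUnion.mp hxU
      exact mem_iUnion.mpr ⟨l, ⟨hx1, hx2⟩, hl⟩
    have h2 := dimH_mono hcov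
    rw [dimH_iUnion] at h2
    exact absurd (h2.trans (iSup_le hcon)) (not_le.mpr hjq)
  have hβ := beta_lt ha
  have hb2 := (phi_aux hβ).2.2
  obtain ⟨hb0, hb1, _⟩ := phi_aux hβ
  have ha0 : 0 < a := lt_of_le_of_lt (Nat.cast_nonneg _) ha
  have hcont := continuousOn_phi hβ j q
  let Φ : C(C j q, ℝ) := ⟨(C j q).domRestrict (phi (2 ^ a) j),
    continuousOn_iff_continuous_domRestrict.mp hcont⟩
  obtain ⟨f, hf⟩ := Φ.exists_restrict_eq (isClosed_C j q)
  have hfe : ∀ x ∈ C j q, f x = phi (2 ^ a) j x := by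
    intro x hx
    have := congrArg (fun g : C(C j q, ℝ) => g ⟨x, hx⟩) hf
    exact this
  set B : ℝ := (2 ^ (m + 1) - 1) * (1 - ((2 : ℝ) ^ a)⁻¹)⁻¹ + 1 with hBdef
  have hB0 : 0 < B := by
    have h1 : (1 : ℝ) ≤ 2 ^ (m + 1) := one_le_pow₀ (by norm_num)
    have h2 : 0 < (1 - ((2 : ℝ) ^ a)⁻¹)⁻¹ := inv_pos.mpr (by linarith)
    have h3 : 0 ≤ (2 ^ (m + 1) - 1 : ℝ) * (1 - ((2 : ℝ) ^ a)⁻¹)⁻¹ :=
      mul_nonneg (by linarith) h2.le
    linarith
  have hphiB : ∀ x : Fin (m + 1) → ℝ, phi (2 ^ a) j x ≤ B := fun x =>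
    (phi_le hβ j x).trans (by rw [hBdef]; linarith)
  -- the cutoff
  have hdisj : Disjoint Uᶜ (F l) := by
    rw [Set.disjoint_left]
    intro x hx hx'
    exact hx (hF2 l hx')
  obtain ⟨χ, hχ0, hχ1, hχ2⟩ := exists_continuous_zero_one_of_isClosed hU.isClosed_compl (hF1 l)
    hdisj
  refine ⟨fun x => (b / B) * (χ x * max 0 (min (f x) B)), ?_, ?_, ?_, ?_⟩
  · fun_prop
  · intro x
    have h1 := hχ2 x
    have h2 : 0 ≤ max 0 (min (f x) B) := le_max_left _ _
    have h3 : max 0 (min (f x) B) ≤ B := max_le hB0.le (min_le_right _ _)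
    have h4 : χ x * max 0 (min (f x) B) ≤ B := by nlinarith [h1.1, h1.2]
    have h5 : 0 ≤ χ x * max 0 (min (f x) B) := mul_nonneg h1.1 h2
    rw [abs_of_nonneg (mul_nonneg (by positivity) h5)]
    calc (b / B) * (χ x * max 0 (min (f x) B)) ≤ (b / B) * B :=
          mul_le_mul_of_nonneg_left h4 (by positivity)
      _ = b := by field_simp
  · intro x hx
    have h1 : χ x = 0 := hχ0 hx
    simp only [h1, zero_mul, mul_zero]
  · obtain ⟨K, hK, hKb⟩ := co_holder ha j q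
    have hval : ∀ x ∈ (E ∩ U) ∩ C j q ∩ F l,
        (b / B) * (χ x * max 0 (min (f x) B)) = (b / B) * phi (2 ^ a) j x := by
      rintro x ⟨⟨_, hx2⟩, hx3⟩
      have h1 : χ x = 1 := hχ1 hx3
      rw [h1, one_mul, hfe x hx2, min_eq_left (hphiB x), max_eq_right (phi_nonneg hβ j x)]
    have hbB : 0 < b / B := by positivity
    have h1 := dimH_le_of_coholder (X := Fin (m + 1) → ℝ) ha0
      (K := K * ((b / B)⁻¹) ^ a⁻¹) (by positivity) ((E ∩ U) ∩ C j q ∩ F l)
      (fun x => (b / B) * (χ x * max 0 (min (f x) B))) (by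
        intro x hx y hy
        rw [hval x hx, hval y hy, ← mul_sub, abs_mul, abs_of_pos hbB]
        refine (hKb x hx.1.2 y hy.1.2).trans (le_of_eq ?_)
        rw [Real.mul_rpow hbB.le (abs_nonneg _), mul_assoc, ← mul_assoc (((b / B)⁻¹) ^ a⁻¹),
          ← Real.mul_rpow (by positivity) hbB.le, inv_mul_cancel₀ hbB.ne', Real.one_rpow, one_mul])
    refine hl.le.trans (h1.trans ?_)
    exact mul_le_mul' le_rfl (dimH_mono (image_mono fun x hx => hx.1.1))

/-- Every set `E ⊆ ℝ^n` (`n = m + 1`) with `dim E > n - 1` has a continuous real image of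
dimension at least `dim E / n`. -/
theorem main (E : Set (Fin (m + 1) → ℝ)) (hE : (m : ℝ≥0∞) < dimH E) :
    ∃ f : (Fin (m + 1) → ℝ) → ℝ, Continuous f ∧ dimH E / ((m + 1 : ℕ) : ℝ≥0∞) ≤ dimH (f '' E) := by
  have htop : dimH E ≤ ((m + 1 : ℕ) : ℝ≥0∞) := by
    have h1 := dimH_mono (subset_univ E)
    rwa [Real.dimH_univ_pi_fin] at h1
  have hne : dimH E ≠ ∞ := ne_top_of_le_ne_top (ENNReal.natCast_ne_top _) htop
  set t : ℝ := (dimH E).toReal with htdef
  have htE : dimH E = ENNReal.ofReal t := (ENNReal.ofReal_toReal hne).symm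
  have hmt : (m : ℝ) < t := by
    rw [htE] at hE
    have h1 : ((m : ℕ) : ℝ≥0∞) = ENNReal.ofReal (m : ℝ) := (ENNReal.ofReal_natCast m).symm
    rw [h1] at hE
    exact (ENNReal.ofReal_lt_ofReal_iff_of_nonneg (Nat.cast_nonneg m)).mp hE
  have hm0 : (0 : ℝ) ≤ m := Nat.cast_nonneg m
  let sr : ℕ → ℝ := fun k => t - (t - m) / ((k : ℝ) + 1)
  have hsr1 : ∀ k, (m : ℝ) ≤ sr k := by
    intro k
    have h1 : (t - m) / ((k : ℝ) + 1) ≤ t - m := by
      rw [div_le_iff₀ (by positivity)]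
      have : (0 : ℝ) ≤ k := Nat.cast_nonneg k
      nlinarith
    simp only [sr]
    linarith
  have hsr2 : ∀ k, sr k < t := by
    intro k
    have h1 : 0 < (t - m) / ((k : ℝ) + 1) := div_pos (by linarith) (by positivity)
    simp only [sr]
    linarith
  obtain ⟨U, hU1, hU2, hU3⟩ := exists_disjoint E (fun k => ENNReal.ofReal (sr k))
    (fun k => by
      rw [← ENNReal.ofReal_natCast]
      exact ENNReal.ofReal_le_ofReal (hsr1 k))
    (fun k => by
      rw [htE]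
      exact (ENNReal.ofReal_lt_ofReal_iff_of_nonneg (hm0.trans (hsr1 k))).mpr (hsr2 k))
  let ar : ℕ → ℝ := fun k => ((m + 1 : ℕ) : ℝ) + 1 / ((k : ℝ) + 1)
  have har : ∀ k, ((m + 1 : ℕ) : ℝ) < ar k := by
    intro k
    have : (0 : ℝ) < 1 / ((k : ℝ) + 1) := by positivity
    simp only [ar]
    linarith
  have hloc := fun k => exists_local E (U k) (hU1 k) (ENNReal.ofReal (sr k))
    (by
      rw [← ENNReal.ofReal_natCast]
      exact ENNReal.ofReal_le_ofReal (hsr1 k)) (hU3 k) (ar k) (har k) ((1 / 2 : ℝ) ^ k)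
    (by positivity)
  choose g hg1 hg2 hg3 hg4 using hloc
  refine ⟨fun x => ∑' k, g k x, ?_, ?_⟩
  · refine continuous_tsum hg1 (summable_geometric_of_lt_one (by norm_num : (0 : ℝ) ≤ 1 / 2)
      (by norm_num)) fun k x => ?_
    rw [Real.norm_eq_abs]
    exact hg2 k x
  · have heq : ∀ k, ∀ x ∈ U k, ∑' l, g l x = g k x := by
      intro k x hx
      refine tsum_eq_single k fun l hl => ?_
      refine hg3 l x fun hx' => ?_
      exact (Set.disjoint_left.mp (hU2 l k hl)) hx' hx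
    set D := dimH ((fun x => ∑' k, g k x) '' E) with hDdef
    have hDle : ∀ k, ENNReal.ofReal (sr k) ≤ ENNReal.ofReal (ar k) * D := by
      intro k
      refine (hg4 k).trans ?_
      gcongr
      rw [hDdef]
      apply dimH_mono
      rintro _ ⟨x, hx, rfl⟩
      exact ⟨x, hx.1, heq k x hx.2⟩
    have hDtop : D ≠ ∞ := by
      have h1 : D ≤ 1 := by
        have h2 := dimH_mono (subset_univ ((fun x => ∑' k, g k x) '' E))
        rwa [Real.dimH_univ] at h2
      exact ne_top_of_le_ne_top ENNReal.one_ne_top h1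
    have hDr : ∀ k, sr k ≤ ar k * D.toReal := by
      intro k
      have h1 := hDle k
      rw [← ENNReal.ofReal_toReal hDtop, ← ENNReal.ofReal_mul
        ((Nat.cast_nonneg _).trans (har k).le)] at h1
      rwa [ENNReal.ofReal_le_ofReal_iff (mul_nonneg ((Nat.cast_nonneg _).trans (har k).le)
        ENNReal.toReal_nonneg)] at h1
    have h0 : Tendsto (fun k : ℕ => 1 / ((k : ℝ) + 1)) atTop (𝓝 0) :=
      tendsto_one_div_add_atTop_nhds_zero_nat
    have h1 : Tendsto sr atTop (𝓝 (t - (t - m) * 0)) := by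
      have := (tendsto_const_nhds (x := t)).sub (h0.const_mul (t - m))
      refine this.congr fun k => ?_
      simp only [sr]
      ring
    have h2 : Tendsto (fun k => ar k * D.toReal) atTop (𝓝 ((((m + 1 : ℕ) : ℝ) + 0) * D.toReal)) :=
      ((tendsto_const_nhds (x := ((m + 1 : ℕ) : ℝ))).add h0).mul_const _
    have h3 := le_of_tendsto_of_tendsto' h1 h2 hDr
    rw [mul_zero, sub_zero, add_zero] at h3
    rw [htE]
    have hm1 : (0 : ℝ) < ((m + 1 : ℕ) : ℝ) := by positivity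
    refine ENNReal.div_le_of_le_mul ?_
    rw [← ENNReal.ofReal_toReal hDtop, ← ENNReal.ofReal_natCast,
      ← ENNReal.ofReal_mul ENNReal.toReal_nonneg]
    apply ENNReal.ofReal_le_ofReal
    linarith

end Pool.Agent.Y388.CI
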