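import Mathlib
import Pool.Agent.Y388.CI.Main

/-!
A countable family of continuous functions `ℝ^n → ℝ` which detects the dimension of all sets of
dimension larger than `n - 1`, up to the factor `n`.
-/

set_option autoImplicit false

namespace Pool.Agent.Y388.CI

open Set Filter Topology MeasureTheory
open scoped ENNReal NNReal

variable {m : ℕ}

theorem exists_ext {a : ℝ} (ha : ((m + 1 : ℕ) : ℝ) < a) (j : ℕ) (q : Fin (m + 1) → ℤ) :
    ∃ f : (Fin (m + 1) → ℝ) → ℝ, Continuous f ∧ ∀ A : Set (Fin (m + 1) → ℝ), A ⊆ C j q →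
      dimH A ≤ ENNReal.ofReal a * dimH (f '' A) := by
  have hβ := beta_lt ha
  have ha0 : 0 < a := lt_of_le_of_lt (Nat.cast_nonneg _) ha
  have hcont := continuousOn_phi hβ j q
  let Φ : C(C j q, ℝ) := ⟨(C j q).domRestrict (phi (2 ^ a) j),
    continuousOn_iff_continuous_domRestrict.mp hcont⟩
  obtain ⟨f, hf⟩ := Φ.exists_restrict_eq (isClosed_C j q)
  have hfe : ∀ x ∈ C j q, f x = phi (2 ^ a) j x := by
    intro x hx
    have := congrArg (fun g : C(C j q, ℝ) => g ⟨x, hx⟩) hf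
    exact this
  obtain ⟨K, hK, hKb⟩ := co_holder ha j q
  refine ⟨f, f.continuous, fun A hA => ?_⟩
  refine dimH_le_of_coholder ha0 hK A f fun x hx y hy => ?_
  rw [hfe x (hA hx), hfe y (hA hy)]
  exact hKb x (hA hx) y (hA hy)

theorem universal (m : ℕ) : ∃ F : ℕ → (Fin (m + 1) → ℝ) → ℝ, (∀ k, Continuous (F k)) ∧
    ∀ E : Set (Fin (m + 1) → ℝ), (m : ℝ≥0∞) < dimH E →
      dimH E / ((m + 1 : ℕ) : ℝ≥0∞) ≤ ⨆ k, dimH (F k '' E) := by
  let ar : ℕ → ℝ := fun k => ((m + 1 : ℕ) : ℝ) + 1 / ((k : ℝ) + 1)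
  have har : ∀ k, ((m + 1 : ℕ) : ℝ) < ar k := by
    intro k
    have : (0 : ℝ) < 1 / ((k : ℝ) + 1) := by positivity
    simp only [ar]
    linarith
  have har0 : ∀ k, 0 ≤ ar k := fun k => (Nat.cast_nonneg _).trans (har k).le
  choose G hG1 hG2 using fun p : ℕ × (Fin (m + 1) → ℤ) × ℕ =>
    exists_ext (har p.2.2) p.1 p.2.1
  obtain ⟨e, he⟩ := exists_surjective_nat (ℕ × (Fin (m + 1) → ℤ) × ℕ)
  refine ⟨fun k => G (e k), fun k => hG1 _, fun E hE => ?_⟩
  set D := ⨆ k, dimH (G (e k) '' E) with hDdef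
  have hDtop : D ≠ ∞ := by
    have h1 : D ≤ 1 := by
      refine iSup_le fun k => ?_
      have h2 := dimH_mono (subset_univ (G (e k) '' E))
      rwa [Real.dimH_univ] at h2
    exact ne_top_of_le_ne_top ENNReal.one_ne_top h1
  have h1 : ∀ r : ℕ, dimH E ≤ ENNReal.ofReal (ar r) * D := by
    intro r
    by_contra hcon
    rw [not_le] at hcon
    obtain ⟨j, q, hjq⟩ := exists_piece E (max (m : ℝ≥0∞) (ENNReal.ofReal (ar r) * D))
      (le_max_left _ _) (max_lt hE hcon)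
    obtain ⟨k, hk⟩ := he (j, q, r)
    have h2 := hG2 (j, q, r) (E ∩ C j q) inter_subset_right
    have h3 : dimH (G (j, q, r) '' (E ∩ C j q)) ≤ D := by
      rw [← hk]
      exact (dimH_mono (image_mono inter_subset_left)).trans
        (le_iSup (fun k => dimH (G (e k) '' E)) k)
    have h4 : dimH (E ∩ C j q) ≤ ENNReal.ofReal (ar r) * D := h2.trans (mul_le_mul' le_rfl h3)
    exact absurd h4 (not_le.mpr ((le_max_right _ _).trans_lt hjq))
  have hne : dimH E ≠ ∞ :=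
    ne_top_of_le_ne_top (ENNReal.mul_ne_top ENNReal.ofReal_ne_top hDtop) (h1 0)
  have h2 : ∀ r, (dimH E).toReal ≤ ar r * D.toReal := by
    intro r
    have h3 := h1 r
    rw [← ENNReal.ofReal_toReal hDtop, ← ENNReal.ofReal_mul (har0 r),
      ← ENNReal.ofReal_toReal hne,
      ENNReal.ofReal_le_ofReal_iff (mul_nonneg (har0 r) ENNReal.toReal_nonneg)] at h3
    exact h3
  have h0 : Tendsto (fun k : ℕ => 1 / ((k : ℝ) + 1)) atTop (𝓝 0) :=
    tendsto_one_div_add_atTop_nhds_zero_nat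
  have h3 : Tendsto (fun k => ar k * D.toReal) atTop (𝓝 ((((m + 1 : ℕ) : ℝ) + 0) * D.toReal)) :=
    ((tendsto_const_nhds (x := ((m + 1 : ℕ) : ℝ))).add h0).mul_const _
  have h4 := ge_of_tendsto' h3 h2
  rw [add_zero] at h4
  refine ENNReal.div_le_of_le_mul ?_
  rw [← ENNReal.ofReal_toReal hDtop, ← ENNReal.ofReal_toReal hne, ← ENNReal.ofReal_natCast,
    ← ENNReal.ofReal_mul ENNReal.toReal_nonneg]
  apply ENNReal.ofReal_le_ofReal
  linarith

end Pool.Agent.Y388.CI
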